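import Pool.Agent.MP_97b1c0_an.CP.Main

set_option autoImplicit false

namespace Pool.Agent.Results.MP_97b1c0_an.NoCommonPeriodicPoint

/-- There are commuting continuous self-maps `f, g` of `[0,1]` without a common periodic point; hence the
commuting triangular maps `(x,y) ↦ (f x, y)`, `(x,y) ↦ (g x, y)` of the square have no common periodic point
either. -/
theorem result :
    ∃ f g : unitInterval → unitInterval, Continuous f ∧ Continuous g ∧ f ∘ g = g ∘ f ∧
      (∀ x : unitInterval, ¬ (x ∈ Function.periodicPts f ∧ x ∈ Function.periodicPts g)) ∧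
      ∀ p : unitInterval × unitInterval,
        ¬ (p ∈ Function.periodicPts (fun p : unitInterval × unitInterval => (f p.1, p.2)) ∧
          p ∈ Function.periodicPts (fun p : unitInterval × unitInterval => (g p.1, p.2))) := by
  obtain ⟨f, g, hf, hg, hfg, hempty⟩ := Pool.Agent.MP_97b1c0_an.CP.main
  have h0 : ∀ x : unitInterval, ¬ (x ∈ Function.periodicPts f ∧ x ∈ Function.periodicPts g) := by
    intro x hx
    have : x ∈ Function.periodicPts f ∩ Function.periodicPts g := hx
    rw [hempty] at this
    exact this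
  refine ⟨f, g, hf, hg, hfg, h0, ?_⟩
  rintro p ⟨⟨a, ha, hpa⟩, ⟨b, hb, hpb⟩⟩
  have hF : Function.Semiconj Prod.fst (fun p : unitInterval × unitInterval => (f p.1, p.2)) f :=
    fun _ => rfl
  have hG : Function.Semiconj Prod.fst (fun p : unitInterval × unitInterval => (g p.1, p.2)) g :=
    fun _ => rfl
  exact h0 p.1 ⟨⟨a, ha, ((hF.iterate_right a) p).symm.trans (congrArg Prod.fst hpa)⟩,
    ⟨b, hb, ((hG.iterate_right b) p).symm.trans (congrArg Prod.fst hpb)⟩⟩

end Pool.Agent.Results.MP_97b1c0_an.NoCommonPeriodicPoint
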