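import Pool.Agent.MP_97b1c0_an.Fibre

set_option autoImplicit false

namespace Pool.Agent.Results.MP_97b1c0_an.PiecewiseSmoothOrMonotone

open Set Function Filter Topology unitInterval
open Pool.Agent.MP_97b1c0_an

lemma fix_of_acc {u : I → I} (hu : Continuous u) {x : I} (h : AccPt x (𝓟 {t | u t = t})) :
    u x = x := by
  have hcl : IsClosed {t | u t = t} := isClosed_eq hu continuous_id
  have h1 : x ∈ closure {t | u t = t} := mem_closure_iff_clusterPt.2 h.clusterPt
  exact hcl.closure_subset h1

lemma base_ok {u : I → I} (hu : Continuous u) (h : {x | ¬ (LocMono u x ∨ C1At u x)}.Countable) :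
    {x | AccPt x (𝓟 {t | u t = t}) ∧ ¬ LocMono u x}.Countable := by
  refine h.mono ?_
  rintro x ⟨hx, hm⟩ hor
  rcases hor with h1 | h1
  · exact hm h1
  · exact hm (h1.locMono (fix_of_acc hu hx) hx)

lemma fib_ok {F : I × I → I × I} (hFc : Continuous F) (h : Triangular F)
    (hfib : (∀ x, {y | ¬ LocMono (fibre F x) y}.Countable) ∨
      (∀ x, {y | ¬ C1At (fibre F x) y}.Countable)) {p : ℕ}
    {x : I} (hp : (base F)^[p] x = x) :
    {y | AccPt y (𝓟 {t | ret F p x t = t}) ∧ ¬ LocMono (ret F p x) y}.Countable := by
  have hc := continuous_ret hFc p x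
  rcases hfib with h1 | h1
  · have h2 := countable_bad (P := LocMono) (fun x => ⟨univ, univ_mem, Or.inl fun a _ b _ hab => hab⟩)
      (fun u v x hu h3 h4 => h3.comp hu h4) hFc h h1 hp
    refine h2.mono ?_
    rintro y ⟨hy, hm⟩
    exact ⟨fix_of_acc hc hy, hm⟩
  · have h2 := countable_bad (P := C1At)
      (fun x => ⟨id, contDiffAt_id, Eventually.of_forall fun t => rfl⟩)
      (fun u v x hu h3 h4 => h3.comp hu h4) hFc h h1 hp
    refine h2.mono ?_
    rintro y ⟨hy, hm⟩
    exact ⟨fix_of_acc hc hy, fun h5 => hm (h5.locMono (fix_of_acc hc hy) hy)⟩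

/-- Commuting continuous triangular maps of the square have a common periodic point as soon as one
of the two base maps is, at all but countably many points, locally monotone or continuously
differentiable, and all fibre maps of one of the two maps are locally monotone at all but countably
many points, or all of them are continuously differentiable at all but countably many points. -/
theorem result (F G : I × I → I × I) (hFc : Continuous F) (hGc : Continuous G)
    (hF : ∀ p q : I × I, p.1 = q.1 → (F p).1 = (F q).1)
    (hG : ∀ p q : I × I, p.1 = q.1 → (G p).1 = (G q).1)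
    (hc : F ∘ G = G ∘ F)
    (hbase : {x | ¬ (LocMono (base F) x ∨ C1At (base F) x)}.Countable ∨
      {x | ¬ (LocMono (base G) x ∨ C1At (base G) x)}.Countable)
    (hfibre : ((∀ x, {y | ¬ LocMono (fibre F x) y}.Countable) ∨
        (∀ x, {y | ¬ C1At (fibre F x) y}.Countable)) ∨
      ((∀ x, {y | ¬ LocMono (fibre G x) y}.Countable) ∨
        (∀ x, {y | ¬ C1At (fibre G x) y}.Countable))) :
    (periodicPts F ∩ periodicPts G).Nonempty := by
  have hF' : Triangular F := hF
  have hG' : Triangular G := hG
  have hcb := hF'.commute_base hG' hc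
  have hb : (periodicPts (base F) ∩ periodicPts (base G)).Nonempty := by
    rcases hbase with h | h
    · exact interval_case (continuous_base hFc) (continuous_base hGc) hcb
        (base_ok (continuous_base hFc) h)
    · rw [inter_comm]
      exact interval_case (continuous_base hGc) (continuous_base hFc) hcb.symm
        (base_ok (continuous_base hGc) h)
  obtain ⟨x, ⟨p, hp0, hp⟩, q, hq0, hq⟩ := hb
  refine fibre_reduction hF' hG' hp0 hq0 hp hq ?_
  have hcr := commute_ret hF' hG' hc hp hq
  rcases hfibre with h | h
  · exact interval_case (continuous_ret hFc p x) (continuous_ret hGc q x) hcr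
      (fib_ok hFc hF' h hp)
  · rw [inter_comm]
    exact interval_case (continuous_ret hGc q x) (continuous_ret hFc p x) hcr.symm
      (fib_ok hGc hG' h hq)

end Pool.Agent.Results.MP_97b1c0_an.PiecewiseSmoothOrMonotone
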