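import Mathlib
import Pool.Agent.MP_97b1c0_an.Square

/-!
Commuting triangular maps of the square (and commuting maps of the interval) have a common
periodic point as soon as one composite `F^a G^b` has only periods that are powers of two.
-/

namespace Pool.Agent.Results.MP_97b1c0_an.PowerOfTwo

open Function

/-- Let `F` and `G` be commuting continuous triangular maps of the unit square, and suppose that for
some `a`, `b`, not both zero, every periodic point of `F^a ∘ G^b` has (least) period a power of two.
Then `F` and `G` have a common periodic point. The same holds for commuting continuous maps of the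
unit interval. -/
theorem result :
    (∀ F G : unitInterval × unitInterval → unitInterval × unitInterval,
      Continuous F → Continuous G →
      (∀ p q : unitInterval × unitInterval, p.1 = q.1 → (F p).1 = (F q).1) →
      (∀ p q : unitInterval × unitInterval, p.1 = q.1 → (G p).1 = (G q).1) →
      F ∘ G = G ∘ F →
      (∃ a b : ℕ, 0 < a + b ∧
        ∀ p ∈ periodicPts (F^[a] ∘ G^[b]), ∃ k : ℕ, minimalPeriod (F^[a] ∘ G^[b]) p = 2 ^ k) →
      (periodicPts F ∩ periodicPts G).Nonempty) ∧
    (∀ f g : unitInterval → unitInterval, Continuous f → Continuous g → f ∘ g = g ∘ f →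
      (∃ a b : ℕ, 0 < a + b ∧
        ∀ x ∈ periodicPts (f^[a] ∘ g^[b]), ∃ k : ℕ, minimalPeriod (f^[a] ∘ g^[b]) x = 2 ^ k) →
      (periodicPts f ∩ periodicPts g).Nonempty) := by
  refine ⟨?_, ?_⟩
  · rintro F G hF hG hFt hGt hc ⟨a, b, hab, hper⟩
    exact Pool.Agent.MP_97b1c0_an.square hF hG hFt hGt hc a b hab hper
  · rintro f g hf hg hc ⟨a, b, hab, hper⟩
    exact Pool.Agent.MP_97b1c0_an.interval hf hg hc a b hab hper

end Pool.Agent.Results.MP_97b1c0_an.PowerOfTwo
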